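import Pool.Agent.P8H70.SR.Stm

/-! Package COMP of the project SR: Taylor coefficients of a composition. -/

set_option autoImplicit false

open Filter Topology Metric Set

namespace Pool.Agent.P8H71.SR

open Pool.Agent.P8H70.SR

/-- Taylor coefficients of finite sums -/
theorem co_sum (hCO : S_CO) (m : ℕ) (c : ℕ → ℂ) (F : ℕ → ℂ → ℂ)
    (hF : ∀ l, AnalyticAt ℂ (F l) 0) (N : ℕ) :
    AnalyticAt ℂ (fun z => ∑ l ∈ Finset.range N, c l * F l z) 0 ∧
    co m (fun z => ∑ l ∈ Finset.range N, c l * F l z) =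
      ∑ l ∈ Finset.range N, c l * co m (F l) := by
  obtain ⟨-, hadd, hsmul, -, -, -, -, -, -⟩ := hCO
  induction N with
  | zero =>
    refine ⟨by simpa using analyticAt_const, ?_⟩
    have h0 := hsmul m 0 (F 0) (hF 0)
    simpa using h0
  | succ N ih =>
    have hA : AnalyticAt ℂ (fun z => c N * F N z) 0 := analyticAt_const.mul (hF N)
    constructor
    · simp only [Finset.sum_range_succ]
      exact ih.1.add hA
    · simp only [Finset.sum_range_succ]
      rw [hadd m _ _ ih.1 hA, ih.2, hsmul m (c N) (F N) (hF N)]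

/-- Taylor series on a ball -/
theorem hasSum_co (Ψ : ℂ → ℂ) (R : ℝ) (hΨ : DifferentiableOn ℂ Ψ (ball 0 R)) (w : ℂ)
    (hw : w ∈ ball (0 : ℂ) R) : HasSum (fun l : ℕ => co l Ψ * w ^ l) (Ψ w) := by
  have h := Complex.hasSum_taylorSeries_on_ball hΨ hw
  have he : (fun n : ℕ => ((n.factorial : ℂ))⁻¹ • (w - 0) ^ n • iteratedDeriv n Ψ 0) =
      fun l : ℕ => co l Ψ * w ^ l := by
    funext l
    simp only [co, sub_zero, smul_eq_mul]
    ring
  rwa [he] at h

/-- analyticity at the centre of a ball -/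
theorem analyticAt_of_ball {f : ℂ → ℂ} {δ : ℝ} (hδ : 0 < δ)
    (hf : DifferentiableOn ℂ f (ball 0 δ)) : AnalyticAt ℂ f 0 :=
  hf.analyticAt (ball_mem_nhds 0 hδ)

theorem comp : S_CO → S_COMP := by
  intro hCO Ψ f R r δ hr hrR hδ hΨ hf hfr m
  have hC := hCO.2.2.2.2.2.2.2.2
  have hadd := hCO.2.1
  have hsmul := hCO.2.2.1
  obtain ⟨r', hrr', hr'R⟩ := exists_between hrR
  have hr'0 : 0 < r' := hr.trans hrr'
  -- a bound for Ψ on the smaller ball
  obtain ⟨B, hB⟩ : ∃ B : ℝ, ∀ z ∈ ball (0 : ℂ) r', ‖Ψ z‖ ≤ B := by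
    have hcpt : IsCompact (closedBall (0 : ℂ) r') := isCompact_closedBall _ _
    have hcont : ContinuousOn Ψ (closedBall (0 : ℂ) r') :=
      hΨ.continuousOn.mono (closedBall_subset_ball hr'R)
    obtain ⟨B, hB⟩ := hcpt.exists_bound_of_continuousOn hcont
    exact ⟨B, fun z hz => hB z (ball_subset_closedBall hz)⟩
  have hB0 : 0 ≤ B := (norm_nonneg _).trans (hB 0 (mem_ball_self hr'0))
  have hcoΨ : ∀ l, ‖co l Ψ‖ ≤ B / r' ^ l := fun l =>
    hC l Ψ r' B hr'0 (hΨ.mono (ball_subset_ball hr'R.le)) hB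
  set q : ℝ := r / r' with hq
  have hq0 : 0 ≤ q := by positivity
  have hq1 : q < 1 := (div_lt_one hr'0).2 hrr'
  -- the powers
  have hfa : AnalyticAt ℂ f 0 := analyticAt_of_ball hδ hf
  have hfpow : ∀ l : ℕ, AnalyticAt ℂ (fun z => f z ^ l) 0 := fun l => hfa.pow l
  have hcopow : ∀ l : ℕ, ‖co m (fun z => f z ^ l)‖ ≤ r ^ l / δ ^ m := by
    intro l
    refine hC m _ δ (r ^ l) hδ (hf.pow l) fun z hz => ?_
    rw [norm_pow]
    exact pow_le_pow_left₀ (norm_nonneg _) (hfr z hz) l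
  have hterm : ∀ l : ℕ, ‖co l Ψ * co m (fun z => f z ^ l)‖ ≤ B / δ ^ m * q ^ l := by
    intro l
    rw [norm_mul]
    calc ‖co l Ψ‖ * ‖co m (fun z => f z ^ l)‖ ≤ (B / r' ^ l) * (r ^ l / δ ^ m) := by
          exact mul_le_mul (hcoΨ l) (hcopow l) (norm_nonneg _) (by positivity)
      _ = B / δ ^ m * q ^ l := by rw [hq, div_pow]; field_simp
  have hsum : Summable (fun l : ℕ => co l Ψ * co m (fun z => f z ^ l)) := by
    refine Summable.of_norm_bounded ((summable_geometric_of_lt_one hq0 hq1).mul_left (B / δ ^ m))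
      hterm
  rw [hsum.hasSum_iff_tendsto_nat]
  -- the approximation
  have happrox : ∀ z ∈ ball (0 : ℂ) δ, ∀ N : ℕ,
      ‖Ψ (f z) - ∑ l ∈ Finset.range N, co l Ψ * f z ^ l‖ ≤ B * q ^ N / (1 - q) := by
    intro z hz N
    have hfz : f z ∈ ball (0 : ℂ) R := by
      rw [mem_ball_zero_iff]; exact (hfr z hz).trans_lt hrR
    have h1 := (hasSum_co Ψ R hΨ (f z) hfz).tendsto_sum_nat
    have h2 := dist_le_of_le_geometric_of_tendsto q B hq1 (f := fun N : ℕ =>
      ∑ l ∈ Finset.range N, co l Ψ * f z ^ l) (a := Ψ (f z)) ?_ h1 N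
    · rwa [dist_comm, dist_eq_norm] at h2
    · intro n
      rw [dist_comm, dist_eq_norm, Finset.sum_range_succ, add_sub_cancel_left, norm_mul, norm_pow]
      calc ‖co n Ψ‖ * ‖f z‖ ^ n ≤ (B / r' ^ n) * r ^ n := by
            exact mul_le_mul (hcoΨ n) (pow_le_pow_left₀ (norm_nonneg _) (hfr z hz) n)
              (by positivity) (by positivity)
        _ = B * q ^ n := by rw [hq, div_pow]; field_simp
  have hcomp : DifferentiableOn ℂ (fun z => Ψ (f z)) (ball 0 δ) := by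
    refine hΨ.comp hf fun z hz => ?_
    rw [mem_ball_zero_iff]; exact (hfr z hz).trans_lt hrR
  have hcompa : AnalyticAt ℂ (fun z => Ψ (f z)) 0 := analyticAt_of_ball hδ hcomp
  have hdist : ∀ N : ℕ, dist (∑ l ∈ Finset.range N, co l Ψ * co m (fun z => f z ^ l))
      (co m (fun z => Ψ (f z))) ≤ (B * q ^ N / (1 - q)) / δ ^ m := by
    intro N
    obtain ⟨hsa, hsc⟩ := co_sum hCO m (fun l => co l Ψ) (fun l z => f z ^ l) hfpow N
    have hneg : AnalyticAt ℂ (fun z => (-1 : ℂ) * ∑ l ∈ Finset.range N, co l Ψ * f z ^ l) 0 :=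
      analyticAt_const.mul hsa
    have h1 := hadd m (fun z => Ψ (f z)) (fun z => (-1 : ℂ) * ∑ l ∈ Finset.range N,
      co l Ψ * f z ^ l) hcompa hneg
    have h2 := hsmul m (-1) (fun z => ∑ l ∈ Finset.range N, co l Ψ * f z ^ l) hsa
    rw [h2, hsc] at h1
    have h3 : ‖co m (fun z => Ψ (f z) + (-1 : ℂ) * ∑ l ∈ Finset.range N, co l Ψ * f z ^ l)‖ ≤
        (B * q ^ N / (1 - q)) / δ ^ m := by
      refine hC m _ δ _ hδ ?_ ?_
      · refine hcomp.add (DifferentiableOn.const_mul ?_ _)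
        exact DifferentiableOn.fun_sum fun l _ => (hf.pow l).const_mul _
      · intro z hz
        have := happrox z hz N
        rwa [neg_one_mul, ← sub_eq_add_neg]
    rw [h1] at h3
    rw [dist_comm, dist_eq_norm]
    rwa [neg_one_mul, ← sub_eq_add_neg] at h3
  have hlim : Tendsto (fun N : ℕ => (B * q ^ N / (1 - q)) / δ ^ m) atTop (𝓝 0) := by
    have h1 := tendsto_pow_atTop_nhds_zero_of_lt_one hq0 hq1
    have h2 := ((h1.const_mul B).div_const (1 - q)).div_const (δ ^ m)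
    simpa using h2
  exact tendsto_iff_dist_tendsto_zero.2
    (squeeze_zero (fun _ => dist_nonneg) hdist hlim)

end Pool.Agent.P8H71.SR
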