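import Pool.Agent.P8H71.SR.Comp

/-! Package NRM of the project SR: properties of the truncated norm `NN`. -/

set_option autoImplicit false

open Filter Topology Metric Set

namespace Pool.Agent.P8H71.SR

open Pool.Agent.P8H70.SR

theorem sum_antidiag_le (F : ℕ × ℕ → ℝ) (hF : ∀ p, 0 ≤ F p) (m : ℕ) :
    ∑ j ∈ Finset.range (m + 1), ∑ p ∈ Finset.HasAntidiagonal.antidiagonal j, F p ≤
      ∑ p ∈ Finset.range (m + 1) ×ˢ Finset.range (m + 1), F p := by
  rw [← Finset.sum_biUnion]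
  · refine Finset.sum_le_sum_of_subset_of_nonneg ?_ fun p _ _ => hF p
    intro p hp
    simp only [Finset.mem_biUnion, Finset.mem_range, Finset.HasAntidiagonal.mem_antidiagonal] at hp
    obtain ⟨j, hj, hp⟩ := hp
    simp only [Finset.mem_product, Finset.mem_range]
    omega
  · intro i _ j _ hij
    rw [Function.onFun, Finset.disjoint_left]
    intro p hp hp'
    simp only [Finset.HasAntidiagonal.mem_antidiagonal] at hp hp'
    exact hij (hp.symm.trans hp')

theorem NN_nonneg {κ : ℝ} (hκ : 1 ≤ κ) (m : ℕ) (f : ℂ → ℂ) : 0 ≤ NN κ m f := by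
  unfold NN
  refine Finset.sum_nonneg fun l _ => ?_
  positivity

theorem NN_mul (hDIG : S_DIG) (hCO : S_CO) {κ : ℝ} (hκ : 1 ≤ κ) (m : ℕ) (f g : ℂ → ℂ)
    (hf : AnalyticAt ℂ f 0) (hg : AnalyticAt ℂ g 0) :
    NN κ m (fun z => f z * g z) ≤ NN κ m f * NN κ m g := by
  have hmul := hCO.2.2.2.1
  have hsub := hDIG.2.2.2.1
  set F : ℕ × ℕ → ℝ := fun p => (‖co p.1 f‖ * κ ^ sd p.1) * (‖co p.2 g‖ * κ ^ sd p.2) with hFdef
  have hF : ∀ p, 0 ≤ F p := fun p => by simp only [hFdef]; positivity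
  calc NN κ m (fun z => f z * g z)
      ≤ ∑ j ∈ Finset.range (m + 1), ∑ p ∈ Finset.HasAntidiagonal.antidiagonal j, F p := by
        unfold NN
        refine Finset.sum_le_sum fun j _ => ?_
        rw [hmul j f g hf hg]
        calc ‖∑ p ∈ Finset.HasAntidiagonal.antidiagonal j, co p.1 f * co p.2 g‖ * κ ^ sd j
            ≤ (∑ p ∈ Finset.HasAntidiagonal.antidiagonal j, ‖co p.1 f * co p.2 g‖) * κ ^ sd j := by
              gcongr
              exact norm_sum_le _ _
          _ = ∑ p ∈ Finset.HasAntidiagonal.antidiagonal j, ‖co p.1 f * co p.2 g‖ * κ ^ sd j := by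
              rw [Finset.sum_mul]
          _ ≤ _ := by
              refine Finset.sum_le_sum fun p hp => ?_
              rw [Finset.HasAntidiagonal.mem_antidiagonal] at hp
              have h1 : κ ^ sd j ≤ κ ^ sd p.1 * κ ^ sd p.2 := by
                rw [← pow_add, ← hp]
                exact pow_le_pow_right₀ hκ (hsub _ _)
              rw [norm_mul]
              calc ‖co p.1 f‖ * ‖co p.2 g‖ * κ ^ sd j
                  ≤ ‖co p.1 f‖ * ‖co p.2 g‖ * (κ ^ sd p.1 * κ ^ sd p.2) := by gcongr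
                _ = F p := by simp only [hFdef]; ring
    _ ≤ ∑ p ∈ Finset.range (m + 1) ×ˢ Finset.range (m + 1), F p := sum_antidiag_le F hF m
    _ = NN κ m f * NN κ m g := by
        unfold NN
        rw [Finset.sum_mul_sum, Finset.sum_product]

theorem NN_one (hDIG : S_DIG) (hCO : S_CO) (κ : ℝ) (m : ℕ) : NN κ m (fun z => z ^ 0) = 1 := by
  have hpow := hCO.2.2.2.2.2.2.1
  unfold NN
  rw [Finset.sum_eq_single 0]
  · rw [hpow 0 0, hDIG.1]; simp
  · intro l _ hl
    rw [hpow l 0, if_neg hl]; simp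
  · intro h; simp at h

theorem NN_pow (hDIG : S_DIG) (hCO : S_CO) {κ : ℝ} (hκ : 1 ≤ κ) (m l : ℕ) (f : ℂ → ℂ)
    (hf : AnalyticAt ℂ f 0) : NN κ m (fun z => f z ^ l) ≤ NN κ m f ^ l := by
  induction l with
  | zero =>
    have h := NN_one hDIG hCO κ m
    simp only [pow_zero] at h ⊢
    exact h.le
  | succ l ih =>
    have h1 := NN_mul hDIG hCO hκ m (fun z => f z ^ l) f (hf.pow l) hf
    calc NN κ m (fun z => f z ^ (l + 1)) = NN κ m (fun z => f z ^ l * f z) := by
          simp only [pow_succ]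
      _ ≤ NN κ m (fun z => f z ^ l) * NN κ m f := h1
      _ ≤ NN κ m f ^ l * NN κ m f := by
          gcongr
          exact NN_nonneg hκ m f
      _ = NN κ m f ^ (l + 1) := (pow_succ _ _).symm

theorem NN_shift (hDIG : S_DIG) (hCO : S_CO) {κ : ℝ} (hκ : 1 ≤ κ) (m : ℕ) (f : ℂ → ℂ)
    (hf : AnalyticAt ℂ f 0) : NN κ (m + 1) (fun z => z * f z) ≤ κ * NN κ m f := by
  have hshift := hCO.2.2.2.2.1
  unfold NN
  rw [Finset.sum_range_succ' _ (m + 1)]
  have h0 : co 0 (fun z => z * f z) = 0 := by simp [co]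
  rw [h0, norm_zero, zero_mul, add_zero, Finset.mul_sum]
  refine Finset.sum_le_sum fun l _ => ?_
  rw [hshift l f hf]
  have hsd : sd (l + 1) ≤ sd l + 1 :=
    (hDIG.2.2.2.1 l 1).trans (Nat.add_le_add_left (hDIG.2.2.2.2.1 1) _)
  calc ‖co l f‖ * κ ^ sd (l + 1) ≤ ‖co l f‖ * κ ^ (sd l + 1) := by
        gcongr
    _ = κ * (‖co l f‖ * κ ^ sd l) := by rw [pow_succ]; ring

/-- coefficients of `f (σ z ^ 2)` -/
theorem co_sq (hCO : S_CO) (hCOMP : S_COMP) (f : ℂ → ℂ) (σ : ℂ) (hf : AnalyticAt ℂ f 0)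
    (hσ : ‖σ‖ = 1) (m : ℕ) :
    co (2 * m) (fun z => f (σ * z ^ 2)) = σ ^ m * co m f ∧
    co (2 * m + 1) (fun z => f (σ * z ^ 2)) = 0 := by
  have hpow := hCO.2.2.2.2.2.2.1
  have hsmul := hCO.2.2.1
  obtain ⟨R, hR, hfR⟩ : ∃ R : ℝ, 0 < R ∧ DifferentiableOn ℂ f (ball 0 R) := by
    have h1 : ∀ᶠ z in 𝓝 (0 : ℂ), AnalyticAt ℂ f z := hf.eventually_analyticAt
    obtain ⟨R, hR, h2⟩ := Metric.eventually_nhds_iff_ball.1 h1
    exact ⟨R, hR, fun z hz => (h2 z hz).differentiableAt.differentiableWithinAt⟩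
  have hδ : 0 < Real.sqrt (R / 2) := Real.sqrt_pos.2 (by linarith)
  have key := hCOMP f (fun z => σ * z ^ 2) R (R / 2) (Real.sqrt (R / 2)) (by linarith)
    (by linarith) hδ hfR (by fun_prop) (by
      intro z hz
      rw [mem_ball_zero_iff] at hz
      rw [norm_mul, hσ, one_mul, norm_pow]
      calc ‖z‖ ^ 2 ≤ Real.sqrt (R / 2) ^ 2 := by gcongr
        _ = R / 2 := Real.sq_sqrt (by linarith))
  have hin : ∀ (j l : ℕ), co j (fun z => (σ * z ^ 2) ^ l) = if j = 2 * l then σ ^ l else 0 := by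
    intro j l
    have h1 : (fun z : ℂ => (σ * z ^ 2) ^ l) = fun z => σ ^ l * z ^ (2 * l) := by
      funext z
      rw [mul_pow, pow_mul]
    rw [h1, hsmul j (σ ^ l) (fun z => z ^ (2 * l)) (by fun_prop), hpow j (2 * l)]
    split_ifs <;> simp
  constructor
  · have h1 := key (2 * m)
    have h2 : HasSum (fun l : ℕ => co l f * co (2 * m) (fun z => (σ * z ^ 2) ^ l))
        (co m f * co (2 * m) (fun z => (σ * z ^ 2) ^ m)) := by
      refine hasSum_single m fun l hl => ?_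
      rw [hin, if_neg (by omega), mul_zero]
    rw [h1.unique h2, hin, if_pos rfl, mul_comm]
  · have h1 := key (2 * m + 1)
    have h2 : HasSum (fun l : ℕ => co l f * co (2 * m + 1) (fun z => (σ * z ^ 2) ^ l)) 0 := by
      convert hasSum_zero with l
      rw [hin, if_neg (by omega), mul_zero]
    exact h1.unique h2

theorem sum_even_odd (G : ℕ → ℝ) (hodd : ∀ l, G (2 * l + 1) = 0) (m : ℕ) :
    ∑ l ∈ Finset.range (m + 1), G l = ∑ l ∈ Finset.range (m / 2 + 1), G (2 * l) := by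
  induction m with
  | zero => simp
  | succ m ih =>
    rw [Finset.sum_range_succ, ih]
    rcases Nat.even_or_odd' m with ⟨k, rfl | rfl⟩
    · rw [hodd, add_zero]
      congr 2
      omega
    · have h1 : (2 * k + 1) / 2 = k := by omega
      have h2 : (2 * k + 1 + 1) / 2 = k + 1 := by omega
      rw [h1, h2, Finset.sum_range_succ _ (k + 1)]
      congr 2

theorem NN_sq (hDIG : S_DIG) (hCO : S_CO) (hCOMP : S_COMP) (κ : ℝ) (m : ℕ) (f : ℂ → ℂ)
    (σ : ℂ) (hf : AnalyticAt ℂ f 0) (hσ : ‖σ‖ = 1) :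
    NN κ m (fun z => f (σ * z ^ 2)) = NN κ (m / 2) f := by
  unfold NN
  rw [sum_even_odd (fun l => ‖co l (fun z => f (σ * z ^ 2))‖ * κ ^ sd l)]
  · refine Finset.sum_congr rfl fun l _ => ?_
    rw [(co_sq hCO hCOMP f σ hf hσ l).1, hDIG.2.1, norm_mul, norm_pow, hσ, one_pow, one_mul]
  · intro l
    rw [(co_sq hCO hCOMP f σ hf hσ l).2, norm_zero, zero_mul]

theorem nrm : S_DIG → S_CO → S_COMP → S_NRM := by
  intro hDIG hCO hCOMP κ hκ
  refine ⟨fun m f g hf hg => NN_mul hDIG hCO hκ m f g hf hg,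
    fun m l f hf => NN_pow hDIG hCO hκ m l f hf,
    fun m f hf => NN_shift hDIG hCO hκ m f hf,
    fun m f σ hf hσ => ⟨(NN_sq hDIG hCO hCOMP κ m f σ hf hσ).le,
      (co_sq hCO hCOMP f σ hf hσ m).1⟩, ?_⟩
  intro Ψ f R r δ hr hrR hδ hΨ hf hfr m B hB
  have hfa : AnalyticAt ℂ f 0 := analyticAt_of_ball hδ hf
  have hsum := fun j : ℕ => (hCOMP Ψ f R r δ hr hrR hδ hΨ hf hfr j).tendsto_sum_nat
  have hlim : Tendsto (fun N : ℕ => ∑ j ∈ Finset.range (m + 1),
      ‖∑ l ∈ Finset.range N, co l Ψ * co j (fun z => f z ^ l)‖ * κ ^ sd j) atTop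
      (𝓝 (NN κ m (fun z => Ψ (f z)))) := by
    unfold NN
    refine tendsto_finsetSum _ fun j _ => ?_
    exact (hsum j).norm.mul_const _
  refine le_of_tendsto' hlim fun N => ?_
  calc ∑ j ∈ Finset.range (m + 1),
      ‖∑ l ∈ Finset.range N, co l Ψ * co j (fun z => f z ^ l)‖ * κ ^ sd j
      ≤ ∑ j ∈ Finset.range (m + 1),
        ∑ l ∈ Finset.range N, ‖co l Ψ‖ * (‖co j (fun z => f z ^ l)‖ * κ ^ sd j) := by
        refine Finset.sum_le_sum fun j _ => ?_
        calc ‖∑ l ∈ Finset.range N, co l Ψ * co j (fun z => f z ^ l)‖ * κ ^ sd j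
            ≤ (∑ l ∈ Finset.range N, ‖co l Ψ * co j (fun z => f z ^ l)‖) * κ ^ sd j := by
              gcongr
              exact norm_sum_le _ _
          _ = _ := by
              rw [Finset.sum_mul]
              refine Finset.sum_congr rfl fun l _ => ?_
              rw [norm_mul, mul_assoc]
    _ = ∑ l ∈ Finset.range N, ‖co l Ψ‖ * NN κ m (fun z => f z ^ l) := by
        rw [Finset.sum_comm]
        refine Finset.sum_congr rfl fun l _ => ?_
        rw [← Finset.mul_sum]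
        rfl
    _ ≤ ∑ l ∈ Finset.range N, ‖co l Ψ‖ * NN κ m f ^ l := by
        refine Finset.sum_le_sum fun l _ => ?_
        gcongr
        exact NN_pow hDIG hCO hκ m l f hfa
    _ ≤ B := hB N

end Pool.Agent.P8H71.SR
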